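import Pool.Agent.H35R3.Al.StmtsC

/-!
Project ALPHA, TaskZ: the mean number of clusters in Mathlib terms agrees with `EK`.
-/

set_option autoImplicit false

namespace H54AlZ

open H974 H35A Finset

theorem sum_powerset_image {A B : Type*} [DecidableEq A] [DecidableEq B] (κ : A → B)
    (hκ : Function.Injective κ) (S : Finset A) (p : ℝ) (g : Finset B → ℝ) :
    ∑ F ∈ S.powerset, p ^ F.card * (1 - p) ^ (S \ F).card * g (F.image κ) =
      ∑ W ∈ (S.image κ).powerset, p ^ W.card * (1 - p) ^ ((S.image κ) \ W).card * g W := by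
  apply Finset.sum_nbij (fun F => F.image κ)
  · intro F hF
    rw [Finset.mem_powerset] at hF ⊢
    exact Finset.image_subset_image hF
  · intro F _ G _ h
    exact Finset.image_injective hκ h
  · intro W hW
    rw [Finset.mem_coe, Finset.mem_powerset] at hW
    obtain ⟨F, hF, hFW⟩ := Finset.subset_image_iff.mp hW
    exact ⟨F, by rw [Finset.mem_coe, Finset.mem_powerset]; exact hF, hFW⟩
  · intro F hF
    rw [← Finset.image_sdiff _ _ hκ, Finset.card_image_of_injective _ hκ,
      Finset.card_image_of_injective _ hκ]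

/-- The unordered pair of the ends of an edge. -/
def kp (e : Edg) : Sym2 Vtx := s(src e, tgt e)

theorem kp_inj : Function.Injective kp := by
  rintro ⟨x, y, b⟩ ⟨x', y', b'⟩ h
  unfold kp at h
  rw [Sym2.eq_iff] at h
  cases b <;> cases b' <;>
    simp only [src_mk, tgt_true, tgt_false, Prod.mk.injEq, reduceCtorEq, and_false,
      and_true] at h ⊢ <;> omega

/-- Vertices of the grid as lattice points. -/
def io (n : ℕ) (v : Fin n × Fin n) : Vtx := ((v.1 : ℕ), (v.2 : ℕ))

theorem io_inj (n : ℕ) : Function.Injective (io n) := by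
  rintro ⟨a, b⟩ ⟨a', b'⟩ h
  unfold io at h
  simp only [Prod.mk.injEq, Nat.cast_inj] at h
  rw [Prod.mk.injEq]
  exact ⟨Fin.ext h.1, Fin.ext h.2⟩

/-- The number of components of the graph on the box with edges in `W`. -/
noncomputable def cW (n : ℕ) (W : Finset (Sym2 Vtx)) : ℕ :=
  Nat.card (SimpleGraph.fromEdgeSet {e : Sym2 (bV n) | e.map Subtype.val ∈ W}).ConnectedComponent

theorem Kn_eq (n : ℕ) (F : Finset Edg) : Kn n F = cW n (F.image kp) := by
  unfold Kn cW
  have h : openG n F =
      SimpleGraph.fromEdgeSet {e : Sym2 (bV n) | e.map Subtype.val ∈ F.image kp} := by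
    ext u v
    rw [SimpleGraph.fromEdgeSet_adj]
    simp only [Set.mem_ofPred_eq, Sym2.map_mk, Finset.mem_image]
    constructor
    · intro h
      refine ⟨?_, (openG n F).ne_of_adj h⟩
      obtain ⟨e, he, h⟩ := h
      refine ⟨e, he, ?_⟩
      unfold kp
      rw [Sym2.eq_iff]
      rcases h with h | h
      · exact Or.inl h
      · exact Or.inr h
    · rintro ⟨⟨e, he, h⟩, _⟩
      unfold kp at h
      rw [Sym2.eq_iff] at h
      refine ⟨e, he, ?_⟩
      rcases h with h | h
      · exact Or.inl h
      · exact Or.inr h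
  rw [h]

/-- The vertices of the grid and of the box. -/
def vE (n : ℕ) : Fin n × Fin n ≃ bV n where
  toFun v := ⟨io n v, by unfold io; constructor <;> constructor <;> simp⟩
  invFun u := (⟨u.1.1.toNat, by have := u.2.1; omega⟩, ⟨u.1.2.toNat, by have := u.2.2; omega⟩)
  left_inv v := by
    obtain ⟨a, b⟩ := v
    simp [io]
  right_inv u := by
    obtain ⟨⟨x, y⟩, hx, hy⟩ := u
    apply Subtype.ext
    simp only [io]
    rw [Prod.mk.injEq]
    constructor
    · simp only at hx ⊢
      omega
    · simp only at hy ⊢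
      omega

theorem card_eq (n : ℕ) (ω : Finset (Sym2 (Fin n × Fin n))) :
    Nat.card (SimpleGraph.fromEdgeSet (ω : Set (Sym2 (Fin n × Fin n)))).ConnectedComponent =
      cW n (ω.image (Sym2.map (io n))) := by
  unfold cW
  apply Nat.card_congr
  apply SimpleGraph.Iso.connectedComponentEquiv
  refine ⟨vE n, ?_⟩
  intro u v
  rw [SimpleGraph.fromEdgeSet_adj, SimpleGraph.fromEdgeSet_adj]
  have hinj : Function.Injective (Sym2.map (io n)) := Sym2.map.injective (io_inj n)
  have h1 : (s(vE n u, vE n v) : Sym2 (bV n)).map Subtype.val = Sym2.map (io n) s(u, v) := rfl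
  simp only [Set.mem_ofPred_eq]
  rw [h1, Finset.mem_image]
  constructor
  · rintro ⟨⟨e, he, h⟩, hne⟩
    refine ⟨?_, fun h' => hne (by rw [h'])⟩
    rw [← hinj h]
    exact he
  · rintro ⟨he, hne⟩
    exact ⟨⟨_, he, rfl⟩, fun h' => hne ((vE n).injective h')⟩

open Classical in
theorem edges_eq (n : ℕ) :
    (bE n).image kp = ((grid n).edgeFinset).image (Sym2.map (io n)) := by
  ext w
  rw [Finset.mem_image, Finset.mem_image]
  constructor
  · rintro ⟨⟨x, y, b⟩, he, rfl⟩
    unfold bE at he
    cases b
    · rw [mem_RE_false] at he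
      refine ⟨s((⟨x.toNat, by omega⟩, ⟨y.toNat, by omega⟩),
        (⟨x.toNat, by omega⟩, ⟨(y + 1).toNat, by omega⟩)), ?_, ?_⟩
      · rw [SimpleGraph.mem_edgeFinset, SimpleGraph.mem_edgeSet]
        unfold grid
        rw [SimpleGraph.boxProd_adj]
        right
        refine ⟨?_, rfl⟩
        rw [SimpleGraph.pathGraph_adj]
        left
        simp only
        omega
      · rw [Sym2.map_mk]
        unfold kp io
        simp only [src_mk, tgt_false]
        rw [Int.toNat_of_nonneg (by omega), Int.toNat_of_nonneg (by omega),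
          Int.toNat_of_nonneg (by omega)]
    · rw [mem_RE_true] at he
      refine ⟨s((⟨x.toNat, by omega⟩, ⟨y.toNat, by omega⟩),
        (⟨(x + 1).toNat, by omega⟩, ⟨y.toNat, by omega⟩)), ?_, ?_⟩
      · rw [SimpleGraph.mem_edgeFinset, SimpleGraph.mem_edgeSet]
        unfold grid
        rw [SimpleGraph.boxProd_adj]
        left
        refine ⟨?_, rfl⟩
        rw [SimpleGraph.pathGraph_adj]
        left
        simp only
        omega
      · rw [Sym2.map_mk]
        unfold kp io
        simp only [src_mk, tgt_true]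
        rw [Int.toNat_of_nonneg (by omega), Int.toNat_of_nonneg (by omega),
          Int.toNat_of_nonneg (by omega)]
  · rintro ⟨e, he, rfl⟩
    induction e with | _ u v =>
    obtain ⟨⟨a, ha⟩, ⟨b, hb⟩⟩ := u
    obtain ⟨⟨a', ha'⟩, ⟨b', hb'⟩⟩ := v
    rw [SimpleGraph.mem_edgeFinset, SimpleGraph.mem_edgeSet] at he
    unfold grid at he
    rw [SimpleGraph.boxProd_adj, SimpleGraph.pathGraph_adj, SimpleGraph.pathGraph_adj] at he
    simp only [Fin.mk.injEq] at he
    unfold bE
    rw [Sym2.map_mk]
    unfold kp io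
    simp only
    rcases he with ⟨h | h, h'⟩ | ⟨h | h, h'⟩
    · refine ⟨((a:ℤ), (b:ℤ), true), ?_, ?_⟩
      · rw [mem_RE_true]; omega
      · rw [Sym2.eq_iff]
        left
        simp only [src_mk, tgt_true, Prod.mk.injEq, true_and, and_true]; omega
    · refine ⟨((a':ℤ), (b:ℤ), true), ?_, ?_⟩
      · rw [mem_RE_true]; omega
      · rw [Sym2.eq_iff]
        right
        simp only [src_mk, tgt_true, Prod.mk.injEq, true_and, and_true]; omega
    · refine ⟨((a:ℤ), (b:ℤ), false), ?_, ?_⟩
      · rw [mem_RE_false]; omega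
      · rw [Sym2.eq_iff]
        left
        simp only [src_mk, tgt_false, Prod.mk.injEq, true_and, and_true]; omega
    · refine ⟨((a:ℤ), (b':ℤ), false), ?_, ?_⟩
      · rw [mem_RE_false]; omega
      · rw [Sym2.eq_iff]
        right
        simp only [src_mk, tgt_false, Prod.mk.injEq, true_and, and_true]; omega

open Classical in
theorem taskZ : TaskZ := by
  intro n p
  have h1 : EK n p = ∑ F ∈ (bE n).powerset,
      p ^ F.card * (1 - p) ^ (bE n \ F).card * ((cW n (F.image kp) : ℕ) : ℝ) := by
    unfold EK Ex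
    apply Finset.sum_congr rfl
    intro F _
    simp only [Finset.prod_const, Kn_eq]
  have h2 : meanClusters n p = ∑ F ∈ (grid n).edgeFinset.powerset,
      p ^ F.card * (1 - p) ^ ((grid n).edgeFinset \ F).card *
        ((cW n (F.image (Sym2.map (io n))) : ℕ) : ℝ) := by
    unfold meanClusters
    apply Finset.sum_congr rfl
    intro F _
    rw [card_eq]
  rw [h1, h2, sum_powerset_image kp kp_inj (bE n) p (fun W => ((cW n W : ℕ) : ℝ))]
  rw [edges_eq]
  have hinj : Function.Injective (Sym2.map (io n)) := Sym2.map.injective (io_inj n)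
  have := sum_powerset_image (Sym2.map (io n)) hinj ((grid n).edgeFinset) p
    (fun W => ((cW n W : ℕ) : ℝ))
  convert this using 3

end H54AlZ
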